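import Pool.Agent.W2helper22.AL.Up

/-!
# Project AL: dual rail simulation of a circuit
-/

set_option autoImplicit false

namespace Pool.Agent.W2helper98.AL

open Finset Pool.Agent.W2helper76.RW Pool.Agent.W2helper22.AL

section

variable {I : Type} {h s : ℕ} {c : ℕ → ℕ} {F : Set (((I → Bool) → Bool) × ℕ)}

/-- two more functions -/
theorem step {f g : (I → Bool) → Bool} {s' : ℕ} {F₁ F₂ : Set (((I → Bool) → Bool) × ℕ)}
    (hA : Av h s' c F₁) (hs : s' ≤ s + 2)
    (hF : ∀ q ∈ F₂, q ∈ F₁ ∨ q = (f, h) ∨ q = (g, h))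
    (hf : ∃ i ≤ h, (f, i) ∈ F₁) (hg : ∃ i ≤ h, (g, i) ∈ F₁) : Av h (s + 2) c F₂ := by
  refine hA.mono hs (fun _ => le_rfl) fun q hq => ?_
  rcases hF q hq with h1 | rfl | rfl
  · exact ⟨q.2, le_rfl, h1⟩
  · exact hf
  · exact hg

/-- the functions of the first `k` gates and their negations -/
def St (C : Circuit I) (h k : ℕ) (F : Set (((I → Bool) → Bool) × ℕ)) :
    Set (((I → Bool) → Bool) × ℕ) :=
  F ∪ {q | ∃ i : Fin C.s, (i : ℕ) < k ∧ (q = (fun x => C.val x i, h) ∨ q = (fun x => !(C.val x i), h))}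

theorem St_pos {C : Circuit I} {k : ℕ} {i : Fin C.s} (hi : (i : ℕ) < k) :
    ((fun x => C.val x i, h) : ((I → Bool) → Bool) × ℕ) ∈ St C h k F :=
  Or.inr ⟨i, hi, Or.inl rfl⟩

theorem St_neg {C : Circuit I} {k : ℕ} {i : Fin C.s} (hi : (i : ℕ) < k) :
    ((fun x => !(C.val x i), h) : ((I → Bool) → Bool) × ℕ) ∈ St C h k F :=
  Or.inr ⟨i, hi, Or.inr rfl⟩

theorem St_succ {C : Circuit I} {k : ℕ} (hk : k < C.s) (q : ((I → Bool) → Bool) × ℕ)
    (hq : q ∈ St C h (k + 1) F) : q ∈ St C h k F ∨ q = (fun x => C.val x ⟨k, hk⟩, h) ∨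
      q = (fun x => !(C.val x ⟨k, hk⟩), h) := by
  rcases hq with hq | ⟨i, hi, hq⟩
  · exact Or.inl (Or.inl hq)
  · rcases Nat.lt_succ_iff_lt_or_eq.mp hi with h2 | h2
    · exact Or.inl (Or.inr ⟨i, h2, hq⟩)
    · have h3 : i = ⟨k, hk⟩ := Fin.ext h2
      subst h3
      exact Or.inr hq

theorem St_step {C : Circuit I} {k : ℕ} (hk : k < C.s)
    (hF : ∀ p, ((fun x => x p), h) ∈ F) (hF' : ∀ p, ((fun x => !(x p)), h) ∈ F)
    (hA : Av h s c (St C h k F)) : Av h (s + 2) c (St C h (k + 1) F) := by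
  have hmem : ∀ {F₁ : Set (((I → Bool) → Bool) × ℕ)} {a b : ((I → Bool) → Bool) × ℕ},
      F₁ = insert a (insert b (St C h k F)) → ∀ q ∈ St C h (k + 1) F, q ∈ F₁ ∨
      q = (fun x => C.val x ⟨k, hk⟩, h) ∨ q = (fun x => !(C.val x ⟨k, hk⟩), h) := by
    rintro F₁ a b rfl q hq
    rcases St_succ hk q hq with h1 | h1
    · exact Or.inl (Set.mem_insert_of_mem _ (Set.mem_insert_of_mem _ h1))
    · exact Or.inr h1
  rcases hg : C.gate ⟨k, hk⟩ with p | b | a | ⟨a, b⟩ | ⟨a, b⟩
  · -- input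
    have e1 : (fun x => C.val x ⟨k, hk⟩) = fun x : I → Bool => x p :=
      funext fun x => C.val_inp hg
    have e2 : (fun x => !(C.val x ⟨k, hk⟩)) = fun x : I → Bool => !(x p) :=
      funext fun x => by rw [C.val_inp hg]
    refine step hA (by omega) (St_succ hk) ⟨h, le_rfl, ?_⟩ ⟨h, le_rfl, ?_⟩
    · rw [e1]
      exact Or.inl (hF p)
    · rw [e2]
      exact Or.inl (hF' p)
  · -- constant
    have e1 : (fun x => C.val x ⟨k, hk⟩) = fun _ : I → Bool => b :=
      funext fun x => C.val_const hg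
    have e2 : (fun x => !(C.val x ⟨k, hk⟩)) = fun _ : I → Bool => !b :=
      funext fun x => by rw [C.val_const hg]
    refine step ((hA.const b).const (!b)) (by omega) (hmem rfl) ⟨0, Nat.zero_le _, ?_⟩
      ⟨0, Nat.zero_le _, ?_⟩
    · rw [e1]
      exact Set.mem_insert_of_mem _ (Set.mem_insert _ _)
    · rw [e2]
      exact Set.mem_insert _ _
  · -- negation
    have ha : (a : ℕ) < k := C.not_lt _ _ hg
    have e1 : (fun x => C.val x ⟨k, hk⟩) = fun x : I → Bool => !(C.val x a) :=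
      funext fun x => C.val_not hg
    have e2 : (fun x => !(C.val x ⟨k, hk⟩)) = fun x : I → Bool => C.val x a :=
      funext fun x => by rw [C.val_not hg, Bool.not_not]
    refine step hA (by omega) (St_succ hk) ⟨h, le_rfl, ?_⟩ ⟨h, le_rfl, ?_⟩
    · rw [e1]
      exact St_neg ha
    · rw [e2]
      exact St_pos ha
  · -- conjunction
    have hab := C.and_lt _ _ _ hg
    have ha : (a : ℕ) < k := hab.1
    have hb : (b : ℕ) < k := hab.2
    have e1 : (fun x => C.val x ⟨k, hk⟩) = fun x : I → Bool => C.val x a && C.val x b :=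
      funext fun x => C.val_and hg
    have e2 : (fun x => !(C.val x ⟨k, hk⟩)) = fun x : I → Bool => !(C.val x a) || !(C.val x b) :=
      funext fun x => by rw [C.val_and hg, Bool.not_and]
    refine step ((hA.and (St_pos ha) (St_pos hb) le_rfl).or
      (Set.mem_insert_of_mem _ (St_neg ha)) (Set.mem_insert_of_mem _ (St_neg hb)) le_rfl)
      (by omega) (hmem rfl) ⟨h, le_rfl, ?_⟩ ⟨h, le_rfl, ?_⟩
    · rw [e1]
      exact Set.mem_insert_of_mem _ (Set.mem_insert _ _)
    · rw [e2]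
      exact Set.mem_insert _ _
  · -- disjunction
    have hab := C.or_lt _ _ _ hg
    have ha : (a : ℕ) < k := hab.1
    have hb : (b : ℕ) < k := hab.2
    have e1 : (fun x => C.val x ⟨k, hk⟩) = fun x : I → Bool => C.val x a || C.val x b :=
      funext fun x => C.val_or hg
    have e2 : (fun x => !(C.val x ⟨k, hk⟩)) = fun x : I → Bool => !(C.val x a) && !(C.val x b) :=
      funext fun x => by rw [C.val_or hg, Bool.not_or]
    refine step ((hA.or (St_pos ha) (St_pos hb) le_rfl).and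
      (Set.mem_insert_of_mem _ (St_neg ha)) (Set.mem_insert_of_mem _ (St_neg hb)) le_rfl)
      (by omega) (hmem rfl) ⟨h, le_rfl, ?_⟩ ⟨h, le_rfl, ?_⟩
    · rw [e1]
      exact Set.mem_insert_of_mem _ (Set.mem_insert _ _)
    · rw [e2]
      exact Set.mem_insert _ _

end

theorem dual_av : S_DUAL := by
  intro I h s c F C hF hF' hA
  have key : ∀ k ≤ C.s, Av h (s + 2 * k) c (St C h k F) := by
    intro k
    induction k with
    | zero =>
      intro _
      refine hA.mono (by omega) (fun _ => le_rfl) fun q hq => ⟨q.2, le_rfl, ?_⟩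
      rcases hq with hq | ⟨i, hi, -⟩
      · exact hq
      · exact absurd hi (Nat.not_lt_zero _)
    | succ k ih =>
      intro hk
      exact St_step (Nat.lt_of_succ_le hk) hF hF' (ih (Nat.le_of_succ_le hk))
  refine (key C.s le_rfl).mono le_rfl (fun _ => le_rfl) fun q hq => ⟨q.2, le_rfl, ?_⟩
  rcases Set.mem_insert_iff.mp hq with rfl | hq
  · exact St_pos C.out.2
  · exact Or.inl hq

end Pool.Agent.W2helper98.AL
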